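import Pool.Agent.N725.JC.Main

/-!
# Residues of polynomials modulo primes in record prime gaps

`ff X = log X (log₂ X)² log₄ X / (log₃ X)²` is the record scale of the starting file `RecordGaps`.

Let `k, D, E` and `0 < δ ≤ 1` be fixed, and let `p` be a large prime. Let `f₁, ..., f_k` be polynomials modulo
`p` of degree at most `D`, no nontrivial linear combination of which is constant (for instance
`x, x², ..., x^k`), and let `B = (A₁, A₁ + H₁] × ... × (A_k, A_k + H_k]` be a box with sides `H_i ≤ p` and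
volume at least `p^(k - 1/2 + δ)`. Then for at least `vol(B) p^(1 - k - δ)` of the residues `x` modulo `p` the
box contains integers `n₁, ..., n_k` with `n_i ≡ f_i(x) (mod p)` such that EVERY integer at distance at most
`c ff(p)` from any of the products `n₁^(e₁) ⋯ n_k^(e_k)` with coprime exponents `e_i ≤ E` (in particular from
any of the `n_i`) has a prime factor at most `p^δ`.

Proof: the sieve of the starting files (`Pool.Agent.H256R2.SC`) jointly for all the products, for arbitrary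
families of integer vectors which are well distributed modulo the integers up to a small power of `p`
(`Pool.Agent.N725.JC`), and Weil's bound.
-/

set_option autoImplicit false

namespace Pool.Agent.Results.MP_3bc45c_nt.PolynomialResidues

open Finset Filter Polynomial

/-- the record scale -/
noncomputable def ff (X : ℝ) : ℝ :=
  Real.log X * (Real.log (Real.log X)) ^ 2 * Real.log (Real.log (Real.log (Real.log X))) /
    (Real.log (Real.log (Real.log X))) ^ 2

/-- every integer within `c ff(p)` of `N` has a prime factor `≤ p ^ δ` -/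
def Desert (p : ℕ) (c δ : ℝ) (N : ℤ) : Prop :=
  ∀ m : ℤ, |(m : ℝ) - N| ≤ c * ff p → ∃ l : ℕ, l.Prime ∧ (l : ℝ) ≤ (p : ℝ) ^ δ ∧ (l : ℤ) ∣ m

open Classical in
theorem result (k D E : ℕ) (δ : ℝ) (hδ : 0 < δ) (hδ1 : δ ≤ 1) : ∃ c : ℝ, 0 < c ∧ ∀ᶠ p : ℕ in atTop,
    p.Prime → ∀ f : Fin k → (ZMod p)[X], (∀ i, (f i).natDegree ≤ D) →
    (∀ h : Fin k → ZMod p, h ≠ 0 → 1 ≤ (∑ i, C (h i) * f i).natDegree) →
    ∀ (A : Fin k → ℤ) (H : Fin k → ℕ), (∀ i, H i ≤ p) →
      (p : ℝ) ^ (k - 1 / 2 + δ) ≤ ∏ i, (H i : ℝ) →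
      (∏ i, (H i : ℝ)) * (p : ℝ) ^ (1 - k - δ) ≤
        ({x : ZMod p | ∃ n : Fin k → ℤ,
          (∀ i, A i < n i ∧ n i ≤ A i + H i ∧ ((n i : ℤ) : ZMod p) = (f i).eval x) ∧
          ∀ e : Fin k → ℕ, (∀ i, e i ≤ E) → Finset.univ.gcd e = 1 →
            Desert p c δ (∏ i, n i ^ e i)}.ncard : ℝ) := by
  obtain ⟨c, hc, hev⟩ := Pool.Agent.N725.JC.resid k E δ hδ hδ1 D (Nat.cast_nonneg D)
  refine ⟨c, hc, ?_⟩
  filter_upwards [hev, eventually_gt_atTop D, eventually_ge_atTop 2] with p hp hpD hp2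
  intro hpp f hf hind A H hH hV
  haveI : Fact p.Prime := ⟨hpp⟩
  have hp0 : (0 : ℝ) < p := by exact_mod_cast hpp.pos
  have hp1 : (1 : ℝ) < p := by exact_mod_cast hpp.one_lt
  have hlog : 0 ≤ Real.log p := Real.log_nonneg hp1.le
  have hcard : ((univ : Finset (ZMod p)).card : ℝ) = p := by rw [card_univ, ZMod.card]
  have hpk : (p : ℝ) ^ (k : ℝ) = (p : ℝ) ^ k := Real.rpow_natCast _ _
  have h1 := hp (ZMod p) univ (fun i x => (f i).eval x) A H (by rw [card_univ, ZMod.card])
    (by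
      intro h hh
      refine (Pool.Agent.N725.JC.poly_sum k D f hf hpD hind h hh).trans ?_
      rw [Real.sqrt_eq_rpow]
      have h2 : (0 : ℝ) ≤ D * (p : ℝ) ^ (1 / 2 : ℝ) := by positivity
      nlinarith)
    hH (by
      rw [hcard, mul_div_assoc]
      have h4 : (p : ℝ) / (p : ℝ) ^ k = (p : ℝ) ^ (1 - k : ℝ) := by
        rw [← hpk, Real.rpow_sub hp0, Real.rpow_one]
      have h3 : (p : ℝ) ^ (1 / 2 + δ) = (p : ℝ) ^ (k - 1 / 2 + δ) * (p / (p : ℝ) ^ k) := by
        rw [h4, ← Real.rpow_add hp0]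
        congr 1
        ring
      rw [h3]
      exact mul_le_mul_of_nonneg_right hV (by positivity))
  rw [hcard] at h1
  have h2 : (∏ i, (H i : ℝ)) * p / (p : ℝ) ^ k * (p : ℝ) ^ (-δ) =
      (∏ i, (H i : ℝ)) * (p : ℝ) ^ (1 - k - δ) := by
    have h3 : (p : ℝ) ^ (1 - k - δ) = p / (p : ℝ) ^ k * (p : ℝ) ^ (-δ) := by
      rw [← hpk, sub_eq_add_neg (1 - (k : ℝ)) δ, Real.rpow_add hp0, Real.rpow_sub hp0, Real.rpow_one]
    rw [h3]
    ring
  rw [h2] at h1
  refine h1.trans ?_
  rw [Nat.cast_le, ← Set.ncard_coe_finset]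
  apply Set.ncard_le_ncard _ (Set.toFinite _)
  intro x hx
  rw [mem_coe, mem_filter] at hx
  refine ⟨fun i => Pool.Agent.N725.JC.rep (A i) (H i) ((f i).eval x), hx.2.1, ?_⟩
  intro e he hg m hm
  refine hx.2.2 e he hg m ?_
  push_cast at hm
  exact hm

end Pool.Agent.Results.MP_3bc45c_nt.PolynomialResidues
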